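import Mathlib

set_option autoImplicit false

/-!
Numbers `α` such that `(3/2)^t α` is dense modulo `6^L` for every `L`: the property is the same
for `α` and for all its positive rational multiples.
-/

namespace Pool.Agent.Lib.MP_881467_an.H79

/-- `(3/2)^t α`, `t ≥ 0`, is dense modulo `6^L` for every `L`. -/
def Good (α : ℝ) : Prop :=
  ∀ (L : ℕ) (z ε : ℝ), 0 < ε → ∃ (t : ℕ) (m : ℤ), |(3 / 2 : ℝ) ^ t * α - z - 6 ^ L * m| < ε

/-- `(3/2)^(q t) α`, `t ≥ 0`, is dense modulo `6^L` for every `L`. -/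
def GoodQ (q : ℕ) (α : ℝ) : Prop :=
  ∀ (L : ℕ) (z ε : ℝ), 0 < ε →
    ∃ (t : ℕ) (m : ℤ), |(3 / 2 : ℝ) ^ (q * t) * α - z - 6 ^ L * m| < ε

theorem Good.mul {α : ℝ} (h : Good α) {k : ℕ} (hk : 0 < k) : Good (k * α) := by
  intro L z ε hε
  have k0 : (0 : ℝ) < k := by exact_mod_cast hk
  obtain ⟨t, m, ht⟩ := h L (z / k) (ε / k) (by positivity)
  refine ⟨t, k * m, ?_⟩
  have e : (3 / 2 : ℝ) ^ t * (k * α) - z - 6 ^ L * ((k * m : ℤ) : ℝ) =
      k * ((3 / 2 : ℝ) ^ t * α - z / k - 6 ^ L * m) := by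
    push_cast
    field_simp
  rw [e, abs_mul, abs_of_pos k0]
  calc (k : ℝ) * |(3 / 2 : ℝ) ^ t * α - z / k - 6 ^ L * m| < k * (ε / k) :=
        mul_lt_mul_of_pos_left ht k0
    _ = ε := by field_simp

theorem Good.div6 {α : ℝ} (h : Good α) : Good (α / 6) := by
  intro L z ε hε
  obtain ⟨t, m, ht⟩ := h (L + 1) (6 * z) (6 * ε) (by positivity)
  refine ⟨t, m, ?_⟩
  have e : (3 / 2 : ℝ) ^ t * (α / 6) - z - 6 ^ L * (m : ℝ) =
      ((3 / 2 : ℝ) ^ t * α - 6 * z - 6 ^ (L + 1) * m) / 6 := by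
    rw [pow_succ]
    ring
  rw [e, abs_div, abs_of_pos (by norm_num : (0 : ℝ) < 6), div_lt_iff₀ (by norm_num)]
  linarith

theorem Good.div6pow {α : ℝ} (h : Good α) (n : ℕ) : Good (α / 6 ^ n) := by
  induction n with
  | zero => simpa using h
  | succ n ih =>
    have := ih.div6
    rwa [div_div, ← pow_succ] at this

/-- Nested intervals: finitely many targets are hit by powers of `3/2` from one interval. -/
theorem nest (L : ℕ) (ε : ℝ) (hε : 0 < ε) (l : List (ℝ × Set ℕ))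
    (hl : ∀ x ∈ l, ∀ N : ℕ, ∃ n ∈ x.2, N ≤ n) :
    ∃ a b : ℝ, a < b ∧ ∀ x ∈ l, ∃ n ∈ x.2, ∃ m : ℤ,
      ∀ w, a < w → w < b → |(3 / 2 : ℝ) ^ n * w - x.1 - 6 ^ L * m| < ε := by
  induction l with
  | nil => exact ⟨0, 1, by norm_num, by simp⟩
  | cons x l ih =>
    obtain ⟨a, b, hab, hmem⟩ := ih (fun y hy => hl y (List.mem_cons_of_mem _ hy))
    obtain ⟨N, hN⟩ := pow_unbounded_of_one_lt (6 ^ L / (b - a) + 1) (by norm_num : (1 : ℝ) < 3 / 2)
    obtain ⟨n, hnS, hn⟩ := hl x List.mem_cons_self N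
    have hba : 0 < b - a := sub_pos.2 hab
    have h1 : (6 : ℝ) ^ L < (3 / 2 : ℝ) ^ n * (b - a) := by
      have h2 : (3 / 2 : ℝ) ^ N ≤ (3 / 2 : ℝ) ^ n := pow_le_pow_right₀ (by norm_num) hn
      have h3 : (6 : ℝ) ^ L / (b - a) < (3 / 2 : ℝ) ^ n := by linarith
      rwa [div_lt_iff₀ hba] at h3
    have h6 : (0 : ℝ) < 6 ^ L := by positivity
    have hp : (0 : ℝ) < (3 / 2 : ℝ) ^ n := by positivity
    -- an integer translate of the target inside the image interval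
    set A := (3 / 2 : ℝ) ^ n * a with hA
    set m : ℤ := ⌊(A - x.1) / 6 ^ L⌋ + 1 with hm
    have hm1 : A < x.1 + 6 ^ L * m := by
      have := Int.lt_floor_add_one ((A - x.1) / 6 ^ L)
      rw [div_lt_iff₀ h6] at this
      rw [hm]
      push_cast
      linarith
    have hm2 : x.1 + 6 ^ L * m ≤ A + 6 ^ L := by
      have := Int.floor_le ((A - x.1) / 6 ^ L)
      rw [le_div_iff₀ h6] at this
      rw [hm]
      push_cast
      linarith
    have hm3 : x.1 + 6 ^ L * m < (3 / 2 : ℝ) ^ n * b := by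
      have : (3 / 2 : ℝ) ^ n * b = A + (3 / 2 : ℝ) ^ n * (b - a) := by rw [hA]; ring
      linarith
    set c := (x.1 + 6 ^ L * m) / (3 / 2 : ℝ) ^ n with hc
    have hc' : (3 / 2 : ℝ) ^ n * c = x.1 + 6 ^ L * m := by rw [hc]; field_simp
    have hac : a < c := by
      rw [hc, lt_div_iff₀ hp, mul_comm]
      exact hm1
    have hcb : c < b := by
      rw [hc, div_lt_iff₀ hp, mul_comm b]
      exact hm3
    set δ := ε / (3 / 2 : ℝ) ^ n with hδ
    have hδ0 : 0 < δ := by positivity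
    refine ⟨max a (c - δ), min b (c + δ), ?_, ?_⟩
    · exact (max_lt hac (by linarith)).trans (lt_min hcb (by linarith))
    · intro y hy
      rcases List.mem_cons.1 hy with rfl | hy
      · refine ⟨n, hnS, m, fun w hw1 hw2 => ?_⟩
        have w1 : c - δ < w := (le_max_right _ _).trans_lt hw1
        have w2 : w < c + δ := hw2.trans_le (min_le_right _ _)
        have e : (3 / 2 : ℝ) ^ n * w - y.1 - 6 ^ L * m = (3 / 2 : ℝ) ^ n * (w - c) := by
          rw [mul_sub, hc']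
          ring
        rw [e, abs_mul, abs_of_pos hp]
        have h4 : |w - c| < δ := abs_lt.2 ⟨by linarith, by linarith⟩
        calc (3 / 2 : ℝ) ^ n * |w - c| < (3 / 2 : ℝ) ^ n * δ := mul_lt_mul_of_pos_left h4 hp
          _ = ε := by rw [hδ]; field_simp
      · obtain ⟨n', hn', m', h'⟩ := hmem y hy
        exact ⟨n', hn', m', fun w hw1 hw2 => h' w ((le_max_left _ _).trans_lt hw1)
          (hw2.trans_le (min_le_left _ _))⟩

/-- Descent: if `k α` is good and `k` is coprime to `6`, then `α` is good. -/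
theorem Good.of_mul {α : ℝ} {k : ℕ} (hk : 0 < k) (h2 : Nat.Coprime 2 k) (h3 : Nat.Coprime 3 k)
    (h : Good (k * α)) : Good α := by
  intro L z ε hε
  have k0 : (0 : ℝ) < k := by exact_mod_cast hk
  set e := Nat.totient k with he
  have e0 : 0 < e := Nat.totient_pos.2 hk
  set l : List (ℝ × Set ℕ) := (List.range k).map fun q : ℕ =>
    (z - 6 ^ L * ((q : ℝ) / k), {n : ℕ | e ∣ n}) with hl
  obtain ⟨a, b, hab, hmem⟩ := nest L ε hε l (by
    intro x hx N
    rw [hl, List.mem_map] at hx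
    obtain ⟨q, _, rfl⟩ := hx
    exact ⟨e * N, Dvd.intro _ rfl, Nat.le_mul_of_pos_left _ e0⟩)
  have hq : ∀ q : ℕ, q < k → ∃ n : ℕ, e ∣ n ∧ ∃ m : ℤ, ∀ w, a < w → w < b →
      |(3 / 2 : ℝ) ^ n * w - (z - 6 ^ L * ((q : ℝ) / k)) - 6 ^ L * m| < ε := by
    intro q hqk
    have := hmem (z - 6 ^ L * ((q : ℝ) / k), {n : ℕ | e ∣ n})
      (List.mem_map.2 ⟨q, List.mem_range.2 hqk, rfl⟩)
    simpa using this
  choose! n hn m hm using hq
  set N := (Finset.range k).sup n with hN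
  set M := L + e * N with hM
  obtain ⟨t, m', ht⟩ := h M (k * ((a + b) / 2)) (k * ((b - a) / 2))
    (mul_pos k0 (by linarith))
  set y := (3 / 2 : ℝ) ^ t * α with hy
  set w := y - 6 ^ M * (m' : ℝ) / k with hw
  have hw2 : |w - (a + b) / 2| < (b - a) / 2 := by
    have e1 : (3 / 2 : ℝ) ^ t * (k * α) - k * ((a + b) / 2) - 6 ^ M * (m' : ℝ) =
        k * (w - (a + b) / 2) := by
      rw [hw, hy]
      field_simp
      ring
    rw [e1, abs_mul, abs_of_pos k0] at ht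
    exact lt_of_mul_lt_mul_left ht k0.le
  rw [abs_lt] at hw2
  -- the residue of `m'`
  have hkZ : (0 : ℤ) < k := by exact_mod_cast hk
  set q : ℕ := (m' % k).toNat with hqd
  have hq0 : 0 ≤ m' % k := Int.emod_nonneg _ hkZ.ne'
  have hqk : q < k := by
    have := Int.emod_lt_of_pos m' hkZ
    omega
  have hqZ : (q : ℤ) = m' % k := Int.toNat_of_nonneg hq0
  obtain ⟨m'', hm''⟩ : ∃ m'' : ℤ, m' = q + k * m'' := by
    refine ⟨m' / k, ?_⟩
    rw [hqZ]
    exact (Int.emod_add_mul_ediv m' k).symm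
  have hnN : n q ≤ e * N := by
    have h1 : n q ≤ N := Finset.le_sup (f := n) (Finset.mem_range.2 hqk)
    exact h1.trans (Nat.le_mul_of_pos_left _ e0)
  -- the integer `R`
  obtain ⟨ν, hν⟩ := hn q hqk
  set R : ℕ := 3 ^ (n q + e * N) * 2 ^ (e * N - n q) with hR
  have hR1 : R ≡ 1 [MOD k] := by
    have p3 : 3 ^ (n q + e * N) ≡ 1 [MOD k] := by
      rw [hν, ← mul_add, pow_mul]
      have := (Nat.ModEq.pow_totient h3).pow (ν + N)
      simpa using this
    have p2 : 2 ^ (e * N - n q) ≡ 1 [MOD k] := by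
      rw [hν, ← Nat.mul_sub, pow_mul]
      have := (Nat.ModEq.pow_totient h2).pow (N - ν)
      simpa using this
    simpa using p3.mul p2
  have hRr : (3 / 2 : ℝ) ^ n q * 6 ^ M = 6 ^ L * R := by
    have : (6 : ℝ) ^ (e * N) = 3 ^ (e * N) * (2 ^ (n q) * 2 ^ (e * N - n q)) := by
      rw [← pow_add, Nat.add_sub_cancel' hnN, ← mul_pow]
      norm_num
    rw [hM, pow_add, this, hR]
    push_cast
    rw [pow_add, div_pow]
    field_simp
  obtain ⟨R', hR'⟩ : ∃ R' : ℤ, (R : ℤ) = 1 + k * R' := by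
    have h5 : (k : ℤ) ∣ (R : ℤ) - 1 := by
      have := (Nat.modEq_iff_dvd.1 hR1.symm)
      simpa using this
    obtain ⟨c, hc⟩ := h5
    exact ⟨c, by linarith⟩
  refine ⟨t + n q, m q + m'' + R' * m', ?_⟩
  have key := hm q hqk w (by linarith) (by linarith)
  have e2 : (3 / 2 : ℝ) ^ (t + n q) * α - z - 6 ^ L * ((m q + m'' + R' * m' : ℤ) : ℝ) =
      (3 / 2 : ℝ) ^ n q * w - (z - 6 ^ L * ((q : ℝ) / k)) - 6 ^ L * (m q : ℝ) := by
    have h7 : (3 / 2 : ℝ) ^ (t + n q) * α = (3 / 2 : ℝ) ^ n q * y := by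
      rw [hy, pow_add]
      ring
    have h8 : (3 / 2 : ℝ) ^ n q * y =
        (3 / 2 : ℝ) ^ n q * w + 6 ^ L * R * (m' : ℝ) / k := by
      rw [← hRr, hw]
      ring
    have h9 : (R : ℝ) = 1 + k * (R' : ℝ) := by exact_mod_cast hR'
    have h10 : (m' : ℝ) = q + k * (m'' : ℝ) := by exact_mod_cast hm''
    rw [h7, h8, h9]
    push_cast
    have h11 : 6 ^ L * (1 + k * (R' : ℝ)) * (m' : ℝ) / k =
        6 ^ L * ((q : ℝ) / k) + 6 ^ L * (m'' : ℝ) + 6 ^ L * (R' * m') := by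
      have : (m' : ℝ) / k = (q : ℝ) / k + m'' := by
        rw [h10]
        field_simp
      calc 6 ^ L * (1 + k * (R' : ℝ)) * (m' : ℝ) / k =
          6 ^ L * ((m' : ℝ) / k) + 6 ^ L * (R' * m') := by field_simp
        _ = _ := by rw [this]; ring
    rw [h11]
    ring
  rw [e2]
  exact key

/-- Goodness passes to the even sparser times `q t`. -/
theorem Good.toQ {α : ℝ} (h : Good α) {q : ℕ} (hq : 0 < q) : GoodQ q α := by
  intro L z ε hε
  set l : List (ℝ × Set ℕ) := (List.range q).map fun r : ℕ => (z, {n : ℕ | q ∣ n + r}) with hl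
  obtain ⟨a, b, hab, hmem⟩ := nest L ε hε l (by
    intro x hx N
    rw [hl, List.mem_map] at hx
    obtain ⟨r, hr, rfl⟩ := hx
    have hr' : r < q := List.mem_range.1 hr
    refine ⟨q * (N + 1) - r, ?_, ?_⟩
    · have : r ≤ q * (N + 1) := hr'.le.trans (Nat.le_mul_of_pos_right _ (by omega))
      show q ∣ q * (N + 1) - r + r
      rw [Nat.sub_add_cancel this]
      exact Dvd.intro _ rfl
    · show N ≤ q * (N + 1) - r
      have : N ≤ q * N := Nat.le_mul_of_pos_left _ hq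
      have e : q * (N + 1) = q * N + q := by ring
      omega)
  have hr : ∀ r : ℕ, r < q → ∃ n : ℕ, q ∣ n + r ∧ ∃ m : ℤ, ∀ w, a < w → w < b →
      |(3 / 2 : ℝ) ^ n * w - z - 6 ^ L * m| < ε := by
    intro r hr
    have := hmem (z, {n : ℕ | q ∣ n + r}) (List.mem_map.2 ⟨r, List.mem_range.2 hr, rfl⟩)
    simpa using this
  choose! n hn m hm using hr
  set N := (Finset.range q).sup n with hN
  obtain ⟨t, m', ht⟩ := h (L + N) ((a + b) / 2) ((b - a) / 2) (by linarith)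
  set y := (3 / 2 : ℝ) ^ t * α with hy
  set w := y - 6 ^ (L + N) * (m' : ℝ) with hw
  have hw2 : |w - (a + b) / 2| < (b - a) / 2 := by
    have : w - (a + b) / 2 = y - (a + b) / 2 - 6 ^ (L + N) * (m' : ℝ) := by rw [hw]; ring
    rw [this]
    exact ht
  rw [abs_lt] at hw2
  set r := t % q with hrd
  have hrq : r < q := Nat.mod_lt _ hq
  have hnN : n r ≤ N := Finset.le_sup (f := n) (Finset.mem_range.2 hrq)
  have hdvd : q ∣ n r + t := by
    have h1 := hn r hrq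
    have h2 : q ∣ t - r := Nat.dvd_sub_mod t
    have h3 : n r + t = (n r + r) + (t - r) := by
      have : r ≤ t := Nat.mod_le _ _
      omega
    rw [h3]
    exact dvd_add h1 h2
  obtain ⟨T, hT⟩ := hdvd
  set R : ℕ := 3 ^ (n r + N) * 2 ^ (N - n r) with hR
  have hRr : (3 / 2 : ℝ) ^ n r * 6 ^ (L + N) = 6 ^ L * R := by
    have : (6 : ℝ) ^ N = 3 ^ N * (2 ^ (n r) * 2 ^ (N - n r)) := by
      rw [← pow_add, Nat.add_sub_cancel' hnN, ← mul_pow]
      norm_num
    rw [pow_add, this, hR]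
    push_cast
    rw [pow_add, div_pow]
    field_simp
  refine ⟨T, m r + R * m', ?_⟩
  have key := hm r hrq w (by linarith) (by linarith)
  have e2 : (3 / 2 : ℝ) ^ (q * T) * α - z - 6 ^ L * ((m r + R * m' : ℤ) : ℝ) =
      (3 / 2 : ℝ) ^ n r * w - z - 6 ^ L * (m r : ℝ) := by
    have h7 : (3 / 2 : ℝ) ^ (q * T) * α = (3 / 2 : ℝ) ^ n r * y := by
      rw [hy, ← hT, pow_add]
      ring
    have h8 : (3 / 2 : ℝ) ^ n r * y = (3 / 2 : ℝ) ^ n r * w + 6 ^ L * R * (m' : ℝ) := by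
      rw [← hRr, hw]
      ring
    rw [h7, h8]
    push_cast
    ring
  rw [e2]
  exact key

/-- Goodness of `k α` implies goodness of `α` for every `k ≥ 1`. -/
theorem Good.of_mul' {α : ℝ} {k : ℕ} (hk : 0 < k) (h : Good (k * α)) : Good α := by
  -- remove the factors 2 and 3
  obtain ⟨a, k1, hk1, rfl⟩ := Nat.exists_eq_pow_mul_and_not_dvd hk.ne' 2 (by norm_num)
  have hk1' : k1 ≠ 0 := by
    rintro rfl
    exact hk1 (dvd_zero _)
  obtain ⟨b, k2, hk2, rfl⟩ := Nat.exists_eq_pow_mul_and_not_dvd hk1' 3 (by norm_num)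
  have hk2' : 0 < k2 := by
    rcases Nat.eq_zero_or_pos k2 with h0 | h0
    · subst h0
      exact absurd (dvd_zero _) hk2
    · exact h0
  have h2 : Nat.Coprime 2 k2 := by
    rw [Nat.Prime.coprime_iff_not_dvd Nat.prime_two]
    intro hd
    exact hk1 (hd.mul_left _)
  have h3 : Nat.Coprime 3 k2 := (Nat.Prime.coprime_iff_not_dvd Nat.prime_three).2 hk2
  have g1 : Good (((3 ^ a * 2 ^ b : ℕ) : ℝ) * (((2 ^ a * (3 ^ b * k2) : ℕ) : ℝ) * α)) :=
    h.mul (by positivity)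
  have e : (((3 ^ a * 2 ^ b : ℕ) : ℝ) * (((2 ^ a * (3 ^ b * k2) : ℕ) : ℝ) * α)) / 6 ^ (a + b) =
      k2 * α := by
    have : (6 : ℝ) ^ (a + b) = (3 ^ a * 2 ^ a) * (2 ^ b * 3 ^ b) := by
      rw [← mul_pow, ← mul_pow, pow_add]
      norm_num
    rw [this]
    push_cast
    field_simp
  have g2 := g1.div6pow (a + b)
  rw [e] at g2
  exact g2.of_mul hk2' h2 h3

/-- All positive elements of `ℤ[1/6]` behave in the same way. -/
theorem good_iff {M M' : ℕ} (hM : 0 < M) (hM' : 0 < M') (n n' : ℕ)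
    (h : Good ((M : ℝ) / 6 ^ n)) : Good ((M' : ℝ) / 6 ^ n') := by
  have h1 : Good (M * ((1 : ℝ) / 6 ^ n)) := by
    have : (M : ℝ) / 6 ^ n = M * ((1 : ℝ) / 6 ^ n) := by ring
    rwa [this] at h
  have h2 := h1.of_mul' hM
  have h3 : Good ((6 ^ n : ℕ) * ((1 : ℝ) / 6 ^ n)) := h2.mul (by positivity)
  have h4 : Good 1 := by
    have : ((6 ^ n : ℕ) : ℝ) * ((1 : ℝ) / 6 ^ n) = 1 := by
      push_cast
      field_simp
    rwa [this] at h3
  have h5 := (h4.mul hM').div6pow n'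
  simpa using h5

end Pool.Agent.Lib.MP_881467_an.H79
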