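import Pool.Agent.Lib.MP_881467_an.Dynamics
import Pool.Agent.Lib.MP_881467_an.H79.Good

set_option autoImplicit false

/-!
Configurations as base-6 expansions of real numbers; density of orbits and `Good`.
-/

namespace Pool.Agent.Lib.MP_881467_an.H79

open Pool.Agent.Lib.MP_881467_an

/-- the digit at cell `i` of the configuration `cfg M n` -/
theorem cfg_digit (M : ℕ) (n i : ℤ) :
    ((cfg M n i).val : ℤ) = ⌊(M : ℝ) / 6 ^ n * 6 ^ i⌋ % 6 := by
  have h6 : (6 : ℝ) ≠ 0 := by norm_num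
  rcases le_or_gt i n with h | h
  · obtain ⟨k, hk⟩ : ∃ k : ℕ, n - i = k := ⟨(n - i).toNat, by omega⟩
    rw [cfg_of_le k hk]
    have e : (M : ℝ) / 6 ^ n * 6 ^ i = (M : ℝ) / ((6 ^ k : ℕ) : ℝ) := by
      have : n = i + k := by omega
      rw [this, zpow_add₀ h6, zpow_natCast]
      push_cast
      have : (6 : ℝ) ^ i ≠ 0 := zpow_ne_zero _ h6
      field_simp
    rw [e]
    have : ⌊(M : ℝ) / ((6 ^ k : ℕ) : ℝ)⌋ = ((M / 6 ^ k : ℕ) : ℤ) := by
      rw [← Nat.floor_div_eq_div (K := ℝ) M (6 ^ k)]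
      exact (Int.natCast_floor_eq_floor (by positivity)).symm
    rw [this]
    norm_cast
  · obtain ⟨k, hk⟩ : ∃ k : ℕ, i - n = k + 1 := ⟨(i - n - 1).toNat, by omega⟩
    rw [cfg_of_gt h]
    have e : (M : ℝ) / 6 ^ n * 6 ^ i = ((M * 6 ^ k * 6 : ℤ) : ℝ) := by
      have : i = n + ((k + 1 : ℕ) : ℤ) := by push_cast; omega
      rw [this, zpow_add₀ h6, zpow_natCast, pow_succ]
      push_cast
      have : (6 : ℝ) ^ n ≠ 0 := zpow_ne_zero _ h6
      field_simp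
    rw [e, Int.floor_intCast]
    simp

/-- the value of the configuration at time `t` -/
theorem iter_digit (M : ℕ) (n : ℕ) (t : ℕ) (i : ℤ) :
    (((mulThreeHalves^[t] (cfg M n)) i).val : ℤ) =
      ⌊(3 / 2 : ℝ) ^ t * ((M : ℝ) / 6 ^ n) * 6 ^ i⌋ % 6 := by
  rw [iterate_cfg, cfg_digit]
  have e : ((9 ^ t * M : ℕ) : ℝ) / 6 ^ ((n : ℤ) + t) = (3 / 2 : ℝ) ^ t * ((M : ℝ) / 6 ^ n) := by
    have : (6 : ℝ) ^ ((n : ℤ) + t) = 6 ^ n * 6 ^ t := by
      rw [zpow_add₀ (by norm_num), zpow_natCast, zpow_natCast]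
    rw [this]
    push_cast
    have h9 : (9 : ℝ) ^ t = (3 / 2) ^ t * 6 ^ t := by
      rw [← mul_pow]
      norm_num
    rw [h9]
    field_simp
  rw [e]

/-- digits to the left are determined by the floor at cell `w` -/
theorem floor_shift (y : ℝ) (w : ℕ) (i : ℤ) (k : ℕ) (h : (w : ℤ) - i = k) :
    ⌊y * 6 ^ i⌋ = ⌊y * 6 ^ w⌋ / 6 ^ k := by
  have e : y * 6 ^ i = (y * 6 ^ w) / ((6 ^ k : ℕ) : ℝ) := by
    have : i = (w : ℤ) - k := by omega
    rw [this, zpow_sub₀ (by norm_num), zpow_natCast, zpow_natCast]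
    push_cast
    ring
  rw [e, Int.floor_div_natCast]
  norm_cast

/-- congruent floors give equal digits -/
theorem digit_of_modEq {A B : ℤ} {N k : ℕ} (h : A ≡ B [ZMOD 6 ^ N]) (hk : k < N) :
    A / 6 ^ k % 6 = B / 6 ^ k % 6 := by
  obtain ⟨c, hc⟩ := h.symm.dvd
  have e : A = B + 6 ^ k * (6 ^ (N - k) * c) := by
    have : (6 : ℤ) ^ N = 6 ^ k * 6 ^ (N - k) := by
      rw [← pow_add]
      congr 1
      omega
    rw [← mul_assoc, ← this]
    linarith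
  rw [e, Int.add_mul_ediv_left _ _ (by positivity)]
  have : (6 : ℤ) ^ (N - k) * c = 6 * (6 ^ (N - k - 1) * c) := by
    have h2 : N - k = (N - k - 1) + 1 := by omega
    conv_lhs => rw [h2, pow_succ]
    ring
  rw [this, Int.add_mul_emod_self_left]

/-- equal digits give congruent integers -/
theorem modEq_of_digit (A B : ℤ) (N : ℕ) (h : ∀ k < N, A / 6 ^ k % 6 = B / 6 ^ k % 6) :
    A ≡ B [ZMOD 6 ^ N] := by
  induction N generalizing A B with
  | zero => simp [Int.ModEq]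
  | succ N ih =>
    have h0 := h 0 (by omega)
    simp only [pow_zero, Int.ediv_one] at h0
    have h1 : A / 6 ≡ B / 6 [ZMOD 6 ^ N] := by
      refine ih (A / 6) (B / 6) fun k hk => ?_
      have := h (k + 1) (by omega)
      rwa [pow_succ', ← Int.ediv_ediv_of_nonneg (by norm_num),
        ← Int.ediv_ediv_of_nonneg (by norm_num)] at this
    obtain ⟨c, hc⟩ := h1.symm.dvd
    rw [Int.modEq_iff_dvd]
    refine ⟨-c, ?_⟩
    have a1 := Int.mul_ediv_add_emod A 6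
    have b1 := Int.mul_ediv_add_emod B 6
    have : (6 : ℤ) ^ (N + 1) * -c = -(6 * (6 ^ N * c)) := by rw [pow_succ]; ring
    rw [this, ← hc]
    omega

/-- `GoodQ` implies density of the orbit under `F^q` -/
theorem dense_of_goodQ (M n q : ℕ) (h : GoodQ q ((M : ℝ) / 6 ^ n)) :
    Dense (Set.range fun t : ℕ => mulThreeHalves^[q * t] (cfg M n)) := by
  rw [dense_iff_inter_open]
  rintro U hU ⟨y, hy⟩
  rw [isOpen_pi_iff] at hU
  obtain ⟨I, u, hu, hsub⟩ := hU y hy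
  obtain ⟨w, hw⟩ : ∃ w : ℕ, ∀ i ∈ I, i.natAbs ≤ w :=
    ⟨I.sup Int.natAbs, fun i hi => Finset.le_sup (f := Int.natAbs) hi⟩
  obtain ⟨P, hP, -⟩ := exists_digits (fun k => y ((w : ℤ) - k)) (2 * w + 1)
  obtain ⟨t, m, ht⟩ := h (w + 1) (((P : ℝ) + 1 / 2) / 6 ^ w) (1 / (2 * 6 ^ w)) (by positivity)
  refine ⟨mulThreeHalves^[q * t] (cfg M n), hsub ?_, t, rfl⟩
  have h6 : (0 : ℝ) < 6 ^ w := by positivity
  have hfl : ⌊(3 / 2 : ℝ) ^ (q * t) * ((M : ℝ) / 6 ^ n) * 6 ^ w⌋ = P + 6 ^ (2 * w + 1) * m := by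
    set a := (3 / 2 : ℝ) ^ (q * t) * ((M : ℝ) / 6 ^ n) with ha
    have h1 : |a * 6 ^ w - (P + 1 / 2) - 6 ^ (2 * w + 1) * m| < 1 / 2 := by
      have e : a * 6 ^ w - (P + 1 / 2) - 6 ^ (2 * w + 1) * (m : ℝ) =
          6 ^ w * (a - ((P : ℝ) + 1 / 2) / 6 ^ w - 6 ^ (w + 1) * m) := by
        have : (6 : ℝ) ^ (2 * w + 1) = 6 ^ w * 6 ^ (w + 1) := by
          rw [← pow_add]
          congr 1
          ring
        rw [this]
        field_simp
      rw [e, abs_mul, abs_of_pos h6]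
      calc (6 : ℝ) ^ w * |a - ((P : ℝ) + 1 / 2) / 6 ^ w - 6 ^ (w + 1) * m| <
          6 ^ w * (1 / (2 * 6 ^ w)) := mul_lt_mul_of_pos_left ht h6
        _ = 1 / 2 := by field_simp
    rw [abs_lt] at h1
    rw [Int.floor_eq_iff]
    push_cast
    constructor <;> linarith [h1.1, h1.2]
  intro i hi
  have hi2 := hw i hi
  obtain ⟨k, hk⟩ : ∃ k : ℕ, (w : ℤ) - i = k := ⟨((w : ℤ) - i).toNat, by omega⟩
  have hk2 : k < 2 * w + 1 := by omega
  have hval : (mulThreeHalves^[q * t] (cfg M n)) i = y i := by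
    apply Fin.ext
    have h1 := iter_digit M n (q * t) i
    rw [floor_shift _ w i k hk, hfl] at h1
    have h2 : ((P : ℤ) + 6 ^ (2 * w + 1) * m) / 6 ^ k % 6 = (P : ℤ) / 6 ^ k % 6 := by
      refine digit_of_modEq ?_ hk2
      have : (P : ℤ) + 6 ^ (2 * w + 1) * m ≡ (P : ℤ) + 0 [ZMOD 6 ^ (2 * w + 1)] :=
        (Int.ModEq.refl _).add ((Int.modEq_zero_iff_dvd).2 (Dvd.intro _ rfl))
      simpa using this
    rw [h2] at h1
    have h3 := hP k hk2
    have h4 : (w : ℤ) - k = i := by omega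
    rw [h4] at h3
    rw [← h3]
    have : (P : ℤ) / 6 ^ k % 6 = ((P / 6 ^ k % 6 : ℕ) : ℤ) := by push_cast; ring
    rw [this] at h1
    exact_mod_cast h1
  show (mulThreeHalves^[q * t] (cfg M n)) i ∈ u i
  rw [hval]
  exact (hu i hi).2

/-- density of the orbit implies `Good` -/
theorem good_of_dense (M n : ℕ)
    (h : Dense (Set.range fun t : ℕ => mulThreeHalves^[t] (cfg M n))) :
    Good ((M : ℝ) / 6 ^ n) := by
  intro L z ε hε
  obtain ⟨w0, hw0⟩ := pow_unbounded_of_one_lt (1 / ε) (by norm_num : (1 : ℝ) < 6)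
  set w := max w0 L with hw
  have h6 : (0 : ℝ) < 6 ^ w := by positivity
  have hwε : 1 / (6 : ℝ) ^ w < ε := by
    have h1 : 1 / ε < 6 ^ w :=
      hw0.trans_le (pow_le_pow_right₀ (by norm_num) (le_max_left _ _))
    rw [div_lt_iff₀ hε] at h1
    rw [div_lt_iff₀ h6]
    linarith
  have hwL : L ≤ w := le_max_right _ _
  set Q := ⌊z * 6 ^ w⌋ with hQ
  set p : ℤ → Fin 6 := fun i =>
    ⟨(Q / 6 ^ ((w : ℤ) - i).toNat % 6).toNat, by
      have h1 := Int.emod_nonneg (Q / 6 ^ ((w : ℤ) - i).toNat) (by norm_num : (6 : ℤ) ≠ 0)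
      have h2 := Int.emod_lt_of_pos (Q / 6 ^ ((w : ℤ) - i).toNat) (by norm_num : (0 : ℤ) < 6)
      omega⟩ with hp
  have hopen : IsOpen ((Finset.Icc (-(w : ℤ)) w : Set ℤ).pi fun i => ({p i} : Set (Fin 6))) :=
    isOpen_set_pi (Finset.finite_toSet _) fun i _ => isOpen_discrete _
  obtain ⟨y, hy, t, rfl⟩ := h.inter_open_nonempty _ hopen ⟨p, fun i _ => rfl⟩
  set a := (3 / 2 : ℝ) ^ t * ((M : ℝ) / 6 ^ n) with ha
  have hmod : ⌊a * 6 ^ w⌋ ≡ Q [ZMOD 6 ^ (2 * w + 1)] := by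
    refine modEq_of_digit _ _ _ fun k hk => ?_
    have hi : ((w : ℤ) - k) ∈ (Finset.Icc (-(w : ℤ)) w : Set ℤ) := by
      rw [Finset.coe_Icc, Set.mem_Icc]
      omega
    have h1 := hy _ hi
    have h2 : (mulThreeHalves^[t] (cfg M n)) ((w : ℤ) - k) = p ((w : ℤ) - k) := h1
    have h3 := iter_digit M n t ((w : ℤ) - k)
    rw [h2, floor_shift _ w _ k (by omega)] at h3
    have h4 : ((w : ℤ) - ((w : ℤ) - k)).toNat = k := by omega
    simp only [hp, h4] at h3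
    have h5 := Int.emod_nonneg (Q / 6 ^ k) (by norm_num : (6 : ℤ) ≠ 0)
    rw [Int.toNat_of_nonneg h5] at h3
    rw [← h3]
  obtain ⟨c, hc⟩ := hmod.symm.dvd
  refine ⟨t, 6 ^ (w + 1 - L) * c, ?_⟩
  have f1 := Int.floor_le (a * 6 ^ w)
  have f2 := Int.lt_floor_add_one (a * 6 ^ w)
  have g1 := Int.floor_le (z * 6 ^ w)
  have g2 := Int.lt_floor_add_one (z * 6 ^ w)
  have hc' : (⌊a * 6 ^ w⌋ : ℝ) = (Q : ℝ) + 6 ^ (2 * w + 1) * c := by
    have : ⌊a * 6 ^ w⌋ = Q + 6 ^ (2 * w + 1) * c := by linarith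
    exact_mod_cast this
  have h7 : |a * 6 ^ w - z * 6 ^ w - 6 ^ (2 * w + 1) * c| < 1 := by
    rw [abs_lt]
    constructor <;> linarith
  have e : a * 6 ^ w - z * 6 ^ w - 6 ^ (2 * w + 1) * (c : ℝ) =
      6 ^ w * (a - z - 6 ^ L * ((6 ^ (w + 1 - L) * c : ℤ) : ℝ)) := by
    have : (6 : ℝ) ^ (2 * w + 1) = 6 ^ w * (6 ^ L * 6 ^ (w + 1 - L)) := by
      rw [← pow_add, ← pow_add]
      congr 1
      omega
    rw [this]
    push_cast
    ring
  rw [e, abs_mul, abs_of_pos h6] at h7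
  have h8 : |a - z - 6 ^ L * ((6 ^ (w + 1 - L) * c : ℤ) : ℝ)| < 1 / 6 ^ w := by
    rw [lt_div_iff₀ h6, mul_comm]
    exact h7
  exact h8.trans hwε

end Pool.Agent.Lib.MP_881467_an.H79
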