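import Pool.Agent.Lib.MP_881467_an.H79.Conf

set_option autoImplicit false

/-!
If the orbit is not dense then it shows exponentially few patterns.
-/

namespace Pool.Agent.Lib.MP_881467_an.H79

open Pool.Agent.Lib.MP_881467_an

/-- `y` avoids the target `z` modulo `1` at the times `ρ, 2ρ, ..., kρ`. -/
def Av (ρ : ℕ) (z ε : ℝ) (k : ℕ) (y : ℝ) : Prop :=
  ∀ i, 1 ≤ i → i ≤ k → ∀ m : ℤ, ε ≤ |(3 / 2 : ℝ) ^ (i * ρ) * y - z - m|

theorem Av.shift {ρ k : ℕ} {z ε y : ℝ} (h : Av ρ z ε k y) (c : ℤ) :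
    Av ρ z ε k (y + 2 ^ (k * ρ) * c) := by
  intro i h1 hik m
  have e : (3 / 2 : ℝ) ^ (i * ρ) * 2 ^ (k * ρ) = ((3 ^ (i * ρ) * 2 ^ ((k - i) * ρ) : ℤ) : ℝ) := by
    have : (2 : ℝ) ^ (k * ρ) = 2 ^ (i * ρ) * 2 ^ ((k - i) * ρ) := by
      rw [← pow_add, ← add_mul, Nat.add_sub_cancel' hik]
    rw [this, div_pow]
    push_cast
    field_simp
  have := h i h1 hik (m - 3 ^ (i * ρ) * 2 ^ ((k - i) * ρ) * c)
  refine this.trans (le_of_eq ?_)
  congr 1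
  have h2 : (3 / 2 : ℝ) ^ (i * ρ) * (y + 2 ^ (k * ρ) * c) =
      (3 / 2 : ℝ) ^ (i * ρ) * y + ((3 ^ (i * ρ) * 2 ^ ((k - i) * ρ) : ℤ) : ℝ) * c := by
    rw [← e]
    ring
  rw [h2]
  push_cast
  ring

theorem Av.tail {ρ k : ℕ} {z ε y : ℝ} (h : Av ρ z ε (k + 1) y) :
    Av ρ z ε k ((3 / 2 : ℝ) ^ ρ * y) := by
  intro i h1 hik m
  have := h (i + 1) (by omega) (by omega) m
  rwa [add_mul, one_mul, pow_add, mul_assoc] at this

open Classical in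
/-- the avoiding residues -/
noncomputable def AS (ρ : ℕ) (z ε : ℝ) (k : ℕ) (u : ℝ) : Finset ℕ :=
  (Finset.range (2 ^ (k * ρ))).filter fun w => Av ρ z ε k (u + w)

open Classical in
theorem hit (ρ : ℕ) (z ε u : ℝ) (hε : 1 / 2 ^ ρ ≤ ε) :
    ((Finset.range (2 ^ ρ)).filter fun w : ℕ =>
      ∀ m : ℤ, ε ≤ |(3 / 2 : ℝ) ^ ρ * (u + w) - z - m|).card ≤ 2 ^ ρ - 1 := by
  have hb : (0 : ℝ) < 2 ^ ρ := by positivity
  obtain ⟨w, hw, hhit⟩ : ∃ w : ℕ, w < 2 ^ ρ ∧ ∃ m : ℤ,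
      |(3 / 2 : ℝ) ^ ρ * (u + w) - z - m| < ε := by
    set X : ℝ := 2 ^ ρ * (z - (3 / 2) ^ ρ * u) with hX
    have hcop : Nat.Coprime (3 ^ ρ) (2 ^ ρ) := Nat.Coprime.pow _ _ (by norm_num)
    have h2 : (0 : ℤ) < 2 ^ ρ := by positivity
    set c : ℕ := (⌊X⌋ % 2 ^ ρ).toNat with hc
    have hc0 : (c : ℤ) = ⌊X⌋ % 2 ^ ρ := Int.toNat_of_nonneg (Int.emod_nonneg _ h2.ne')
    obtain ⟨w, hw, hw2⟩ := Nat.exists_mul_mod_eq_of_coprime c hcop (by positivity)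
    have h3 : (3 ^ ρ * w : ℤ) ≡ ⌊X⌋ [ZMOD 2 ^ ρ] := by
      have h4 : (3 ^ ρ * w : ℕ) ≡ c [MOD 2 ^ ρ] := hw2
      have h5 := (Int.natCast_modEq_iff).2 h4
      push_cast at h5
      rw [hc0] at h5
      exact h5.trans (Int.mod_modEq _ _)
    obtain ⟨m, hm⟩ := h3.symm.dvd
    refine ⟨w, hw, m, ?_⟩
    have hmR : (3 : ℝ) ^ ρ * w - ⌊X⌋ = 2 ^ ρ * m := by exact_mod_cast hm
    have f1 := Int.floor_le X
    have f2 := Int.lt_floor_add_one X
    have e : (3 / 2 : ℝ) ^ ρ * (u + w) - z - m = (⌊X⌋ - X) / 2 ^ ρ := by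
      rw [eq_div_iff hb.ne', hX]
      have : (3 / 2 : ℝ) ^ ρ * 2 ^ ρ = 3 ^ ρ := by rw [← mul_pow]; norm_num
      have h6 : ((3 / 2 : ℝ) ^ ρ * (u + w) - z - m) * 2 ^ ρ =
          2 ^ ρ * ((3 / 2) ^ ρ * u) + ((3 / 2 : ℝ) ^ ρ * 2 ^ ρ) * w - 2 ^ ρ * z - 2 ^ ρ * m := by
        ring
      rw [h6, this, ← hmR]
      ring
    rw [e, abs_div, abs_of_pos hb]
    refine lt_of_lt_of_le ?_ hε
    refine div_lt_div_of_pos_right ?_ hb
    rw [abs_lt]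
    constructor <;> linarith
  have hsub : ((Finset.range (2 ^ ρ)).filter fun w : ℕ =>
      ∀ m : ℤ, ε ≤ |(3 / 2 : ℝ) ^ ρ * (u + w) - z - m|) ⊆ (Finset.range (2 ^ ρ)).erase w := by
    intro v hv
    rw [Finset.mem_filter] at hv
    refine Finset.mem_erase.2 ⟨?_, hv.1⟩
    rintro rfl
    obtain ⟨m, hm⟩ := hhit
    exact absurd (hv.2 m) (not_le.2 hm)
  refine (Finset.card_le_card hsub).trans ?_
  rw [Finset.card_erase_of_mem (Finset.mem_range.2 hw), Finset.card_range]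

theorem card_AS (ρ : ℕ) (z ε : ℝ) (hε : 1 / 2 ^ ρ ≤ ε) (k : ℕ) (u : ℝ) :
    (AS ρ z ε k u).card ≤ (2 ^ ρ - 1) ^ k := by
  classical
  induction k generalizing u with
  | zero =>
    refine (Finset.card_le_card (Finset.filter_subset _ _)).trans ?_
    simp
  | succ k ih =>
    set G := (Finset.range (2 ^ ρ)).filter fun w : ℕ =>
      ∀ m : ℤ, ε ≤ |(3 / 2 : ℝ) ^ ρ * (u + w) - z - m| with hG
    have hGc : G.card ≤ 2 ^ ρ - 1 := hit ρ z ε u hε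
    have hpow : 2 ^ ((k + 1) * ρ) = 2 ^ ρ * 2 ^ (k * ρ) := by
      rw [← pow_add]
      congr 1
      ring
    have hmain : (AS ρ z ε (k + 1) u).card ≤
        (G.sigma fun w0 => AS ρ z ε k ((3 / 2 : ℝ) ^ ρ * (u + w0))).card := by
      refine Finset.card_le_card_of_injOn
        (fun w => (⟨w % 2 ^ ρ, (3 ^ ρ * (w / 2 ^ ρ)) % 2 ^ (k * ρ)⟩ : Σ _ : ℕ, ℕ)) ?_ ?_
      · intro w hw
        rw [Finset.mem_coe, AS, Finset.mem_filter, Finset.mem_range] at hw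
        obtain ⟨hw1, hw2⟩ := hw
        have hdec : (w : ℝ) = ((w % 2 ^ ρ : ℕ) : ℝ) + 2 ^ ρ * ((w / 2 ^ ρ : ℕ) : ℝ) := by
          have := Nat.mod_add_div w (2 ^ ρ)
          exact_mod_cast this.symm
        have himg : (3 / 2 : ℝ) ^ ρ * (u + w) =
            (3 / 2 : ℝ) ^ ρ * (u + ((w % 2 ^ ρ : ℕ) : ℝ)) + 3 ^ ρ * ((w / 2 ^ ρ : ℕ) : ℝ) := by
          have h3 : (3 / 2 : ℝ) ^ ρ * 2 ^ ρ = 3 ^ ρ := by rw [← mul_pow]; norm_num
          conv_lhs => rw [hdec]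
          rw [← h3]
          ring
        rw [Finset.mem_coe, Finset.mem_sigma]
        refine ⟨?_, ?_⟩
        · rw [hG, Finset.mem_filter, Finset.mem_range]
          refine ⟨Nat.mod_lt _ (by positivity), fun m => ?_⟩
          have h1 := hw2 1 le_rfl (by omega) (m + 3 ^ ρ * ((w / 2 ^ ρ : ℕ) : ℤ))
          rw [one_mul, himg] at h1
          refine h1.trans (le_of_eq ?_)
          congr 1
          simp only [Int.cast_add, Int.cast_mul, Int.cast_pow, Int.cast_natCast, Int.cast_ofNat]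
          ring
        · rw [AS, Finset.mem_filter, Finset.mem_range]
          refine ⟨Nat.mod_lt _ (by positivity), ?_⟩
          have h1 := hw2.tail
          rw [himg] at h1
          set N := 3 ^ ρ * (w / 2 ^ ρ) with hN
          have h2 : (3 : ℝ) ^ ρ * ((w / 2 ^ ρ : ℕ) : ℝ) =
              ((N % 2 ^ (k * ρ) : ℕ) : ℝ) + 2 ^ (k * ρ) * ((N / 2 ^ (k * ρ) : ℕ) : ℝ) := by
            have := Nat.mod_add_div N (2 ^ (k * ρ))
            have h3 : ((N % 2 ^ (k * ρ) : ℕ) : ℝ) + 2 ^ (k * ρ) * ((N / 2 ^ (k * ρ) : ℕ) : ℝ) = N := by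
              exact_mod_cast this
            rw [h3, hN]
            push_cast
            ring
          rw [h2] at h1
          have h4 := h1.shift (-((N / 2 ^ (k * ρ) : ℕ) : ℤ))
          have h5 : (3 / 2 : ℝ) ^ ρ * (u + ((w % 2 ^ ρ : ℕ) : ℝ)) +
              (((N % 2 ^ (k * ρ) : ℕ) : ℝ) + 2 ^ (k * ρ) * ((N / 2 ^ (k * ρ) : ℕ) : ℝ)) +
              2 ^ (k * ρ) * ((-((N / 2 ^ (k * ρ) : ℕ) : ℤ) : ℤ) : ℝ) =
              (3 / 2 : ℝ) ^ ρ * (u + ((w % 2 ^ ρ : ℕ) : ℝ)) + ((N % 2 ^ (k * ρ) : ℕ) : ℝ) := by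
            simp only [Int.cast_neg, Int.cast_natCast]
            ring
          rw [h5] at h4
          exact h4
      · intro w hw v hv hwv
        rw [Finset.mem_coe, AS, Finset.mem_filter, Finset.mem_range, hpow] at hw hv
        simp only [Sigma.mk.injEq, heq_eq_eq] at hwv
        obtain ⟨e1, e2⟩ := hwv
        have hcop : Nat.Coprime (2 ^ (k * ρ)) (3 ^ ρ) := Nat.Coprime.pow _ _ (by norm_num)
        have e3 : w / 2 ^ ρ ≡ v / 2 ^ ρ [MOD 2 ^ (k * ρ)] :=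
          Nat.ModEq.cancel_left_of_coprime hcop e2
        have w1 : w / 2 ^ ρ < 2 ^ (k * ρ) := Nat.div_lt_of_lt_mul hw.1
        have v1 : v / 2 ^ ρ < 2 ^ (k * ρ) := Nat.div_lt_of_lt_mul hv.1
        have e4 : w / 2 ^ ρ = v / 2 ^ ρ := Nat.ModEq.eq_of_lt_of_lt e3 w1 v1
        rw [← Nat.mod_add_div w (2 ^ ρ), ← Nat.mod_add_div v (2 ^ ρ), e1, e4]
    refine hmain.trans ?_
    rw [Finset.card_sigma]
    calc ∑ w0 ∈ G, (AS ρ z ε k ((3 / 2 : ℝ) ^ ρ * (u + w0))).card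
        ≤ ∑ _w0 ∈ G, (2 ^ ρ - 1) ^ k := Finset.sum_le_sum fun w0 _ => ih _
      _ = G.card * (2 ^ ρ - 1) ^ k := by rw [Finset.sum_const, smul_eq_mul]
      _ ≤ (2 ^ ρ - 1) * (2 ^ ρ - 1) ^ k := Nat.mul_le_mul_right _ hGc
      _ = (2 ^ ρ - 1) ^ (k + 1) := by rw [pow_succ, mul_comm]

open Classical in
/-- the same over a longer range -/
theorem card_long (ρ : ℕ) (z ε : ℝ) (hε : 1 / 2 ^ ρ ≤ ε) (k Q : ℕ) (u : ℝ) :
    ((Finset.range (2 ^ (k * ρ) * Q)).filter fun w : ℕ => Av ρ z ε k (u + w)).card ≤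
      Q * (2 ^ ρ - 1) ^ k := by
  have h : ((Finset.range (2 ^ (k * ρ) * Q)).filter fun w : ℕ => Av ρ z ε k (u + w)).card ≤
      ((Finset.range Q) ×ˢ (AS ρ z ε k u)).card := by
    refine Finset.card_le_card_of_injOn (fun w => (w / 2 ^ (k * ρ), w % 2 ^ (k * ρ))) ?_ ?_
    · intro w hw
      rw [Finset.mem_coe, Finset.mem_filter, Finset.mem_range] at hw
      rw [Finset.mem_coe, Finset.mem_product, Finset.mem_range, AS, Finset.mem_filter,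
        Finset.mem_range]
      refine ⟨Nat.div_lt_of_lt_mul hw.1, Nat.mod_lt _ (by positivity), ?_⟩
      have h4 := hw.2.shift (-((w / 2 ^ (k * ρ) : ℕ) : ℤ))
      have h5 : u + (w : ℝ) + 2 ^ (k * ρ) * ((-((w / 2 ^ (k * ρ) : ℕ) : ℤ) : ℤ) : ℝ) =
          u + ((w % 2 ^ (k * ρ) : ℕ) : ℝ) := by
        have : ((w % 2 ^ (k * ρ) : ℕ) : ℝ) + 2 ^ (k * ρ) * ((w / 2 ^ (k * ρ) : ℕ) : ℝ) = w := by
          exact_mod_cast Nat.mod_add_div w (2 ^ (k * ρ))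
        rw [Int.cast_neg, Int.cast_natCast]
        linarith
      rw [h5] at h4
      exact h4
    · intro w _ v _ hwv
      simp only [Prod.mk.injEq] at hwv
      rw [← Nat.mod_add_div w (2 ^ (k * ρ)), ← Nat.mod_add_div v (2 ^ (k * ρ)), hwv.1, hwv.2]
  refine h.trans ?_
  rw [Finset.card_product, Finset.card_range]
  exact Nat.mul_le_mul_left _ (card_AS ρ z ε hε k u)

open Classical in
/-- the residues whose whole future (up to time `K`) avoids the target -/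
theorem card_B (n L K ρ k : ℕ) (z ε : ℝ) (hK : n + 1 = L + K) (hk : k * ρ ≤ K)
    (hε : 1 / 2 ^ ρ ≤ ε / 6 ^ L) :
    (((Finset.range (6 ^ (2 * n + 1))).filter fun R : ℕ => ∀ s ≤ K, ∀ m : ℤ,
      ε ≤ |(3 / 2 : ℝ) ^ s * (R / 6 ^ n) - z - 6 ^ L * m|).card : ℝ) ≤
      6 ^ (2 * n + 1) * ((2 ^ ρ - 1) / 2 ^ ρ) ^ k := by
  have h6L : (0 : ℝ) < 6 ^ L := by positivity
  set Q : ℕ := 2 ^ (K - k * ρ) * 3 ^ K with hQ
  have hQ6 : 6 ^ K = 2 ^ (k * ρ) * Q := by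
    rw [hQ, ← mul_assoc, ← pow_add, Nat.add_sub_cancel' hk, ← mul_pow]
    norm_num
  have h : ((Finset.range (6 ^ (2 * n + 1))).filter fun R : ℕ => ∀ s ≤ K, ∀ m : ℤ,
      ε ≤ |(3 / 2 : ℝ) ^ s * (R / 6 ^ n) - z - 6 ^ L * m|).card ≤
      6 ^ (n + L) * (Q * (2 ^ ρ - 1) ^ k) := by
    have h1 : ((Finset.range (6 ^ (2 * n + 1))).filter fun R : ℕ => ∀ s ≤ K, ∀ m : ℤ,
      ε ≤ |(3 / 2 : ℝ) ^ s * (R / 6 ^ n) - z - 6 ^ L * m|).card ≤
      ((Finset.range (6 ^ (n + L))).sigma fun r : ℕ =>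
        (Finset.range (2 ^ (k * ρ) * Q)).filter fun w : ℕ =>
          Av ρ (z / 6 ^ L) (ε / 6 ^ L) k ((r : ℝ) / 6 ^ (n + L) + w)).card := by
      refine Finset.card_le_card_of_injOn
        (fun R => (⟨R % 6 ^ (n + L), R / 6 ^ (n + L)⟩ : Σ _ : ℕ, ℕ)) ?_ ?_
      · intro R hR
        rw [Finset.mem_coe, Finset.mem_filter, Finset.mem_range] at hR
        rw [Finset.mem_coe, Finset.mem_sigma, Finset.mem_range, Finset.mem_filter,
          Finset.mem_range]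
        refine ⟨Nat.mod_lt _ (by positivity), ?_, ?_⟩
        · rw [← hQ6]
          refine Nat.div_lt_of_lt_mul ?_
          rw [← pow_add]
          have : n + L + K = 2 * n + 1 := by omega
          rw [this]
          exact hR.1
        · intro i _ hik m
          have hs : i * ρ ≤ K := (Nat.mul_le_mul_right _ hik).trans hk
          have h2 := hR.2 (i * ρ) hs m
          have hdec : (R : ℝ) = ((R % 6 ^ (n + L) : ℕ) : ℝ) +
              6 ^ (n + L) * ((R / 6 ^ (n + L) : ℕ) : ℝ) := by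
            exact_mod_cast (Nat.mod_add_div R (6 ^ (n + L))).symm
          have e : (3 / 2 : ℝ) ^ (i * ρ) * (((R % 6 ^ (n + L) : ℕ) : ℝ) / 6 ^ (n + L) +
              ((R / 6 ^ (n + L) : ℕ) : ℝ)) - z / 6 ^ L - m =
              ((3 / 2 : ℝ) ^ (i * ρ) * (R / 6 ^ n) - z - 6 ^ L * m) / 6 ^ L := by
            rw [eq_div_iff h6L.ne']
            have h7 : (R : ℝ) / 6 ^ n = 6 ^ L * (((R % 6 ^ (n + L) : ℕ) : ℝ) / 6 ^ (n + L) +
              ((R / 6 ^ (n + L) : ℕ) : ℝ)) := by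
              have h8 : (6 : ℝ) ^ (n + L) = 6 ^ n * 6 ^ L := pow_add _ _ _
              have h9 : (6 : ℝ) ^ n ≠ 0 := by positivity
              have h10 : (6 : ℝ) ^ L ≠ 0 := by positivity
              generalize ((R % 6 ^ (n + L) : ℕ) : ℝ) = r' at hdec ⊢
              generalize ((R / 6 ^ (n + L) : ℕ) : ℝ) = w' at hdec ⊢
              rw [hdec, h8]
              field_simp
            rw [h7]
            field_simp
          rw [e, abs_div, abs_of_pos h6L]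
          exact div_le_div_of_nonneg_right h2 h6L.le
      · intro R _ R' _ hRR
        simp only [Sigma.mk.injEq, heq_eq_eq] at hRR
        rw [← Nat.mod_add_div R (6 ^ (n + L)), ← Nat.mod_add_div R' (6 ^ (n + L)), hRR.1, hRR.2]
    refine h1.trans ?_
    rw [Finset.card_sigma]
    calc ∑ r ∈ Finset.range (6 ^ (n + L)), ((Finset.range (2 ^ (k * ρ) * Q)).filter fun w : ℕ =>
          Av ρ (z / 6 ^ L) (ε / 6 ^ L) k ((r : ℝ) / 6 ^ (n + L) + w)).card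
        ≤ ∑ _r ∈ Finset.range (6 ^ (n + L)), Q * (2 ^ ρ - 1) ^ k :=
          Finset.sum_le_sum fun r _ => card_long ρ _ _ hε k Q _
      _ = 6 ^ (n + L) * (Q * (2 ^ ρ - 1) ^ k) := by
          rw [Finset.sum_const, smul_eq_mul, Finset.card_range]
  have h2 : (((2 ^ ρ - 1 : ℕ) : ℕ) : ℝ) = 2 ^ ρ - 1 := by
    rw [Nat.cast_sub Nat.one_le_two_pow]
    push_cast
    ring
  calc (((Finset.range (6 ^ (2 * n + 1))).filter fun R : ℕ => ∀ s ≤ K, ∀ m : ℤ,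
      ε ≤ |(3 / 2 : ℝ) ^ s * (R / 6 ^ n) - z - 6 ^ L * m|).card : ℝ)
      ≤ ((6 ^ (n + L) * (Q * (2 ^ ρ - 1) ^ k) : ℕ) : ℝ) := by exact_mod_cast h
    _ = 6 ^ (n + L) * (Q * (2 ^ ρ - 1) ^ k) := by
        rw [Nat.cast_mul, Nat.cast_mul, Nat.cast_pow, Nat.cast_pow, h2]
        norm_num
    _ = 6 ^ (2 * n + 1) * ((2 ^ ρ - 1) / 2 ^ ρ) ^ k := by
        have h3 : (6 : ℝ) ^ K = 2 ^ (k * ρ) * Q := by exact_mod_cast hQ6
        have h4 : (6 : ℝ) ^ (2 * n + 1) = 6 ^ (n + L) * 6 ^ K := by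
          rw [← pow_add]
          congr 1
          omega
        rw [h4, h3, div_pow, ← pow_mul, mul_comm ρ k]
        field_simp

/-- the residues of `⌊(3/2)^t α 6^n⌋` modulo `6^(2n+1)` -/
def TS (α : ℝ) (n : ℕ) : Set ℕ :=
  {R | ∃ t : ℕ, (R : ℤ) = ⌊(3 / 2 : ℝ) ^ t * α * 6 ^ n⌋ % 6 ^ (2 * n + 1)}

theorem TS_lt {α : ℝ} {n R : ℕ} (h : R ∈ TS α n) : R < 6 ^ (2 * n + 1) := by
  obtain ⟨t, ht⟩ := h
  have := Int.emod_lt_of_pos ⌊(3 / 2 : ℝ) ^ t * α * 6 ^ n⌋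
    (by positivity : (0 : ℤ) < 6 ^ (2 * n + 1))
  rw [← ht] at this
  exact_mod_cast this

theorem TS_sub (α : ℝ) (n : ℕ) :
    TS α n ⊆ ((Finset.range (6 ^ (2 * n + 1)) : Finset ℕ) : Set ℕ) := fun R hR => by
  rw [Finset.coe_range]
  exact TS_lt hR

theorem TS_finite (α : ℝ) (n : ℕ) : (TS α n).Finite :=
  Set.Finite.subset (Finset.finite_toSet _) (TS_sub α n)

/-- the number of patterns is at most the number of residues -/
theorem patterns_le (M n₀ n : ℕ) :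
    (Set.range fun (t : ℕ) (i : Set.Icc (-(n : ℤ)) n) =>
        (mulThreeHalves^[t] (cfg M n₀)) i).ncard ≤ (TS ((M : ℝ) / 6 ^ n₀) n).ncard := by
  set α := (M : ℝ) / 6 ^ n₀ with hα
  have hpat : (Set.range fun (t : ℕ) (i : Set.Icc (-(n : ℤ)) n) =>
        (mulThreeHalves^[t] (cfg M n₀)) i) ⊆
      (fun (R : ℕ) (i : Set.Icc (-(n : ℤ)) n) =>
        (⟨R / 6 ^ ((n : ℤ) - i).toNat % 6, Nat.mod_lt _ (by norm_num)⟩ : Fin 6)) '' TS α n := by
    rintro _ ⟨t, rfl⟩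
    set A := ⌊(3 / 2 : ℝ) ^ t * α * 6 ^ n⌋ with hA
    have h0 := Int.emod_nonneg A (by positivity : (6 : ℤ) ^ (2 * n + 1) ≠ 0)
    refine ⟨(A % 6 ^ (2 * n + 1)).toNat, ⟨t, Int.toNat_of_nonneg h0⟩, ?_⟩
    funext i
    obtain ⟨i, hi1, hi2⟩ := i
    apply Fin.ext
    simp only
    obtain ⟨k, hk⟩ : ∃ k : ℕ, (n : ℤ) - i = k := ⟨((n : ℤ) - i).toNat, by omega⟩
    have hk2 : k < 2 * n + 1 := by omega
    have h1 := iter_digit M n₀ t i
    rw [floor_shift _ n i k hk, ← hα, ← hA] at h1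
    have h2 : A / 6 ^ k % 6 = (A % 6 ^ (2 * n + 1)) / 6 ^ k % 6 :=
      digit_of_modEq (Int.mod_modEq _ _).symm hk2
    have h3 : ((n : ℤ) - i).toNat = k := by omega
    rw [h3]
    have h4 : (((A % 6 ^ (2 * n + 1)).toNat / 6 ^ k % 6 : ℕ) : ℤ) =
        (A % 6 ^ (2 * n + 1)) / 6 ^ k % 6 := by
      push_cast
      rw [Int.toNat_of_nonneg h0]
    have h5 : (((A % 6 ^ (2 * n + 1)).toNat / 6 ^ k % 6 : ℕ) : ℤ) =
        (((mulThreeHalves^[t] (cfg M n₀)) i).val : ℤ) := by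
      rw [h4, h1, h2]
    exact_mod_cast h5
  exact (Set.ncard_le_ncard hpat ((TS_finite α n).image _)).trans
    (Set.ncard_image_le (TS_finite α n))

/-- writing a number through its residue -/
theorem decomp (y : ℝ) (n R : ℕ) (h : (R : ℤ) = ⌊y * 6 ^ n⌋ % 6 ^ (2 * n + 1)) :
    ∃ (q : ℤ) (δ : ℝ), 0 ≤ δ ∧ δ < 1 ∧ y = R / 6 ^ n + 6 ^ (n + 1) * q + δ / 6 ^ n := by
  have f1 := Int.floor_le (y * 6 ^ n)
  have f2 := Int.lt_floor_add_one (y * 6 ^ n)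
  obtain ⟨q, hq⟩ : ∃ q : ℤ, ⌊y * 6 ^ n⌋ = R + 6 ^ (2 * n + 1) * q := by
    refine ⟨⌊y * 6 ^ n⌋ / 6 ^ (2 * n + 1), ?_⟩
    rw [h]
    exact (Int.emod_add_mul_ediv _ _).symm
  have hqR : (⌊y * 6 ^ n⌋ : ℝ) = R + 6 ^ (2 * n + 1) * q := by exact_mod_cast hq
  refine ⟨q, y * 6 ^ n - ⌊y * 6 ^ n⌋, by linarith, by linarith, ?_⟩
  have h6n : (6 : ℝ) ^ n ≠ 0 := by positivity
  have e2 : (6 : ℝ) ^ (2 * n + 1) = 6 ^ n * 6 ^ (n + 1) := by
    rw [← pow_add]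
    congr 1
    ring
  rw [hqR, e2]
  field_simp
  ring

/-- comparison of the residue counts of `α` and of `M α / 6^n₀` -/
theorem compare (α : ℝ) (M n₀ s : ℕ) (hs : M ≤ 6 ^ s) (n : ℕ) :
    (TS ((M : ℝ) / 6 ^ n₀ * α) n).ncard ≤ 2 * (TS α (n + n₀ + s)).ncard := by
  classical
  set n' := n + n₀ + s with hn'
  set g : ℕ × Fin 2 → ℕ := fun a =>
    ((⌊(M : ℝ) * a.1 / 6 ^ (2 * n₀ + s)⌋ + (a.2.val : ℤ)) % 6 ^ (2 * n + 1)).toNat with hg
  have hsub : TS ((M : ℝ) / 6 ^ n₀ * α) n ⊆ g '' ((TS α n') ×ˢ (Set.univ : Set (Fin 2))) := by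
    rintro R ⟨t, ht⟩
    set y := (3 / 2 : ℝ) ^ t * α with hy
    have h0 := Int.emod_nonneg ⌊y * 6 ^ n'⌋ (by positivity : (6 : ℤ) ^ (2 * n' + 1) ≠ 0)
    set R' := (⌊y * 6 ^ n'⌋ % 6 ^ (2 * n' + 1)).toNat with hR'
    have hR'Z : (R' : ℤ) = ⌊y * 6 ^ n'⌋ % 6 ^ (2 * n' + 1) := Int.toNat_of_nonneg h0
    have hmem : R' ∈ TS α n' := ⟨t, hR'Z⟩
    obtain ⟨q, δ, hδ0, hδ1, hdec⟩ := decomp y n' R' hR'Z
    set X := (M : ℝ) * R' / 6 ^ (2 * n₀ + s) with hX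
    set η := (M : ℝ) * δ / 6 ^ (2 * n₀ + s) with hη
    have hη0 : 0 ≤ η := by positivity
    have hη1 : η < 1 := by
      rw [hη, div_lt_one (by positivity)]
      have h1 : (M : ℝ) ≤ 6 ^ s := by exact_mod_cast hs
      have h2 : (6 : ℝ) ^ s ≤ 6 ^ (2 * n₀ + s) := pow_le_pow_right₀ (by norm_num) (by omega)
      have h3 : (0 : ℝ) < 6 ^ (2 * n₀ + s) := by positivity
      calc (M : ℝ) * δ ≤ 6 ^ (2 * n₀ + s) * δ :=
            mul_le_mul_of_nonneg_right (h1.trans h2) hδ0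
        _ < 6 ^ (2 * n₀ + s) * 1 := mul_lt_mul_of_pos_left hδ1 h3
        _ = 6 ^ (2 * n₀ + s) := mul_one _
    have hval : (3 / 2 : ℝ) ^ t * ((M : ℝ) / 6 ^ n₀ * α) * 6 ^ n =
        X + η + ((6 ^ (2 * n + 1) * (6 ^ s * M * q) : ℤ) : ℝ) := by
      have e1 : (3 / 2 : ℝ) ^ t * ((M : ℝ) / 6 ^ n₀ * α) * 6 ^ n = M / 6 ^ n₀ * 6 ^ n * y := by
        rw [hy]
        ring
      have e2 : (6 : ℝ) ^ n' = 6 ^ n * 6 ^ n₀ * 6 ^ s := by rw [hn', pow_add, pow_add]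
      have e3 : (6 : ℝ) ^ (2 * n₀ + s) = 6 ^ n₀ * 6 ^ n₀ * 6 ^ s := by
        rw [two_mul, pow_add, pow_add]
      have e4 : (6 : ℝ) ^ (n' + 1) = 6 ^ n * 6 ^ n₀ * 6 ^ s * 6 := by rw [pow_succ, e2]
      have e5 : (6 : ℝ) ^ (2 * n + 1) = 6 ^ n * 6 ^ n * 6 := by rw [pow_succ, two_mul, pow_add]
      rw [e1, hdec, hX, hη, e2, e3, e4]
      push_cast
      rw [e5]
      field_simp
      ring
    have hfl : ⌊(3 / 2 : ℝ) ^ t * ((M : ℝ) / 6 ^ n₀ * α) * 6 ^ n⌋ =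
        ⌊X + η⌋ + 6 ^ (2 * n + 1) * (6 ^ s * M * q) := by
      rw [hval, Int.floor_add_intCast]
    have hcase : ∃ b : Fin 2, ⌊X + η⌋ = ⌊X⌋ + (b.val : ℤ) := by
      have a1 : ⌊X⌋ ≤ ⌊X + η⌋ := Int.floor_le_floor (by linarith)
      have a2 : ⌊X + η⌋ ≤ ⌊X + 1⌋ := Int.floor_le_floor (by linarith)
      rw [Int.floor_add_one] at a2
      rcases eq_or_ne ⌊X + η⌋ ⌊X⌋ with h | h
      · exact ⟨0, by simpa using h⟩
      · refine ⟨1, ?_⟩
        have : ⌊X + η⌋ = ⌊X⌋ + 1 := by omega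
        simpa using this
    obtain ⟨b, hb⟩ := hcase
    refine ⟨(R', b), ⟨hmem, Set.mem_univ _⟩, ?_⟩
    rw [hfl, hb, Int.add_mul_emod_self_left] at ht
    simp only [hg]
    rw [← hX, ← ht]
    simp
  have hfin : ((TS α n') ×ˢ (Set.univ : Set (Fin 2))).Finite :=
    (TS_finite α n').prod Set.finite_univ
  calc (TS ((M : ℝ) / 6 ^ n₀ * α) n).ncard ≤ (g '' ((TS α n') ×ˢ (Set.univ : Set (Fin 2)))).ncard :=
        Set.ncard_le_ncard hsub (hfin.image _)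
    _ ≤ ((TS α n') ×ˢ (Set.univ : Set (Fin 2))).ncard := Set.ncard_image_le hfin
    _ = 2 * (TS α n').ncard := by
        rw [Set.ncard_prod, Set.ncard_univ, Nat.card_eq_fintype_card, Fintype.card_fin, mul_comm]

/-- If `α` is not good, there are at most `C c^(2n+1)` residues, `c < 6`. -/
theorem sparse {α : ℝ} (h : ¬ Good α) :
    ∃ c C : ℝ, 0 < c ∧ c < 6 ∧ 0 < C ∧ ∀ n : ℕ,
      ((TS α n).ncard : ℝ) ≤ C * c ^ (2 * n + 1) := by
  classical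
  unfold Good at h
  push Not at h
  obtain ⟨L, z, ε, hε, hav⟩ := h
  have h6L : (0 : ℝ) < 6 ^ L := by positivity
  obtain ⟨ρ₀, hρ₀⟩ := pow_unbounded_of_one_lt (6 ^ L / (ε / 2)) (by norm_num : (1 : ℝ) < 2)
  set ρ := ρ₀ + 1 with hρ
  have hρ1 : 1 / (2 : ℝ) ^ ρ ≤ (ε / 2) / 6 ^ L := by
    have h1 : 6 ^ L / (ε / 2) < (2 : ℝ) ^ ρ :=
      hρ₀.trans_le (pow_le_pow_right₀ (by norm_num) (by omega))
    rw [div_lt_iff₀ (by positivity)] at h1
    rw [div_le_div_iff₀ (by positivity) h6L]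
    linarith
  obtain ⟨n₁, hn₁⟩ := pow_unbounded_of_one_lt (3 / ε) (by norm_num : (1 : ℝ) < 4)
  set N := max n₁ L with hN
  set b : ℝ := 2 ^ ρ with hb
  have hb2 : 2 ≤ b := by
    rw [hb, hρ, pow_succ]
    have : (1 : ℝ) ≤ 2 ^ ρ₀ := one_le_pow₀ (by norm_num)
    linarith
  set θ : ℝ := 1 - 1 / (2 * ρ * b) with hθ
  have hρR : (1 : ℝ) ≤ ρ := by exact_mod_cast (by omega : 1 ≤ ρ)
  have hpos : (0 : ℝ) < 2 * ρ * b := by positivity
  have hθ1 : θ < 1 := by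
    rw [hθ]
    have : 0 < 1 / (2 * ρ * b) := by positivity
    linarith
  have hθ0 : 0 < θ := by
    rw [hθ, sub_pos, div_lt_one hpos]
    nlinarith
  have hη : (b - 1) / b ≤ θ ^ (2 * ρ) := by
    have h1 := one_add_mul_le_pow (a := -(1 / (2 * ρ * b))) (by
      have : 1 / (2 * ρ * b) ≤ 1 := by
        rw [div_le_one hpos]
        nlinarith
      linarith) (2 * ρ)
    have e1 : 1 + ((2 * ρ : ℕ) : ℝ) * -(1 / (2 * ρ * b)) = (b - 1) / b := by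
      push_cast
      have : b ≠ 0 := by positivity
      have : (ρ : ℝ) ≠ 0 := by positivity
      field_simp
      ring
    have e2 : 1 + -(1 / (2 * ρ * b)) = θ := by rw [hθ]; ring
    rw [e1, e2] at h1
    exact h1
  set C : ℝ := (θ ^ (2 * L + 2 * ρ + (2 * N + 1)))⁻¹ with hC
  have hCpos : 0 < C := inv_pos.2 (pow_pos hθ0 _)
  refine ⟨6 * θ, C, by positivity, by linarith, hCpos, fun n => ?_⟩
  have hTlt : ∀ R ∈ TS α n, R < 6 ^ (2 * n + 1) := fun R hR => TS_lt hR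
  have hθpow : ∀ {p q : ℕ}, q ≤ p → θ ^ p ≤ θ ^ q := fun h =>
    pow_le_pow_of_le_one hθ0.le hθ1.le h
  rcases lt_or_ge n N with hnN | hnN
  · -- small n
    have h2 : (TS α n).ncard ≤ 6 ^ (2 * n + 1) := by
      refine (Set.ncard_le_ncard (TS_sub α n) (Finset.finite_toSet _)).trans ?_
      rw [Set.ncard_coe_finset, Finset.card_range]
    have h3 : ((TS α n).ncard : ℝ) ≤ 6 ^ (2 * n + 1) := by exact_mod_cast h2
    refine h3.trans ?_
    rw [mul_pow, hC]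
    have h4 : θ ^ (2 * L + 2 * ρ + (2 * N + 1)) ≤ θ ^ (2 * n + 1) := hθpow (by omega)
    have h5 : 0 < θ ^ (2 * L + 2 * ρ + (2 * N + 1)) := pow_pos hθ0 _
    rw [← div_eq_inv_mul, le_div_iff₀ h5]
    exact mul_le_mul_of_nonneg_left h4 (by positivity)
  · -- large n
    have hnL : L ≤ n := (le_max_right _ _).trans hnN
    set K := n + 1 - L with hK
    set k := K / ρ with hkd
    have hkK : k * ρ ≤ K := Nat.div_mul_le_self _ _
    have hKk : K < (k + 1) * ρ := by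
      have := Nat.lt_div_mul_add (a := K) (b := ρ) (by omega)
      rw [add_mul, one_mul]
      exact this
    have hsmall : (3 / 2 : ℝ) ^ K / 6 ^ n ≤ ε / 2 := by
      have h1 : (3 / 2 : ℝ) ^ K ≤ (3 / 2 : ℝ) ^ (n + 1) :=
        pow_le_pow_right₀ (by norm_num) (by omega)
      have h2 : (3 / 2 : ℝ) ^ (n + 1) / 6 ^ n = (3 / 2) / 4 ^ n := by
        have : (6 : ℝ) ^ n = (3 / 2) ^ n * 4 ^ n := by rw [← mul_pow]; norm_num
        rw [this, pow_succ]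
        field_simp
      have h3 : 3 / ε < (4 : ℝ) ^ n :=
        hn₁.trans_le (pow_le_pow_right₀ (by norm_num) ((le_max_left _ _).trans hnN))
      rw [div_lt_iff₀ hε] at h3
      calc (3 / 2 : ℝ) ^ K / 6 ^ n ≤ (3 / 2 : ℝ) ^ (n + 1) / 6 ^ n :=
            div_le_div_of_nonneg_right h1 (by positivity)
        _ = (3 / 2) / 4 ^ n := h2
        _ ≤ ε / 2 := by
            rw [div_le_iff₀ (by positivity)]
            linarith
    have h1 : TS α n ⊆ (((Finset.range (6 ^ (2 * n + 1))).filter fun R : ℕ => ∀ s ≤ K, ∀ m : ℤ,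
        ε / 2 ≤ |(3 / 2 : ℝ) ^ s * (R / 6 ^ n) - z - 6 ^ L * m| : Finset ℕ) : Set ℕ) := by
      intro R hR
      rw [Finset.mem_coe, Finset.mem_filter, Finset.mem_range]
      refine ⟨hTlt R hR, fun s hs m => ?_⟩
      obtain ⟨t, ht⟩ := hR
      set y := (3 / 2 : ℝ) ^ t * α with hy
      obtain ⟨q, δ, d0, d1, hyR⟩ := decomp y n R ht
      have hint : (3 / 2 : ℝ) ^ s * 6 ^ (n + 1) =
          6 ^ L * ((3 ^ (s + K) * 2 ^ (K - s) : ℤ) : ℝ) := by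
        have h7 : n + 1 = L + K := by omega
        have h8 : (2 : ℝ) ^ K = 2 ^ s * 2 ^ (K - s) := by
          rw [← pow_add, Nat.add_sub_cancel' hs]
        have h9 : (6 : ℝ) ^ K = 3 ^ K * 2 ^ K := by rw [← mul_pow]; norm_num
        rw [h7, pow_add, h9, h8, div_pow]
        push_cast
        rw [pow_add]
        field_simp
      have h10 := hav (t + s) (m + 3 ^ (s + K) * 2 ^ (K - s) * q)
      have e3 : (3 / 2 : ℝ) ^ (t + s) * α - z -
          6 ^ L * ((m + 3 ^ (s + K) * 2 ^ (K - s) * q : ℤ) : ℝ) =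
          ((3 / 2 : ℝ) ^ s * (R / 6 ^ n) - z - 6 ^ L * m) + (3 / 2 : ℝ) ^ s * (δ / 6 ^ n) := by
        have h11 : (3 / 2 : ℝ) ^ (t + s) * α = (3 / 2 : ℝ) ^ s * y := by
          rw [hy, pow_add]
          ring
        have h12 : (3 / 2 : ℝ) ^ s * y = (3 / 2 : ℝ) ^ s * (R / 6 ^ n) +
            ((3 / 2 : ℝ) ^ s * 6 ^ (n + 1)) * q + (3 / 2 : ℝ) ^ s * (δ / 6 ^ n) := by
          conv_lhs => rw [hyR]
          ring
        rw [h11, h12, hint]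
        push_cast
        ring
      rw [e3] at h10
      have h13 : |(3 / 2 : ℝ) ^ s * (δ / 6 ^ n)| ≤ ε / 2 := by
        rw [abs_of_nonneg (by positivity)]
        calc (3 / 2 : ℝ) ^ s * (δ / 6 ^ n) ≤ (3 / 2 : ℝ) ^ K * (1 / 6 ^ n) := by
              refine mul_le_mul (pow_le_pow_right₀ (by norm_num) hs) ?_ (by positivity)
                (by positivity)
              exact div_le_div_of_nonneg_right d1.le (by positivity)
          _ = (3 / 2 : ℝ) ^ K / 6 ^ n := by ring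
          _ ≤ ε / 2 := hsmall
      have h14 := abs_add_le ((3 / 2 : ℝ) ^ s * (R / 6 ^ n) - z - 6 ^ L * m)
        ((3 / 2 : ℝ) ^ s * (δ / 6 ^ n))
      linarith
    have hB := card_B n L K ρ k z (ε / 2) (by omega) hkK hρ1
    set B := (Finset.range (6 ^ (2 * n + 1))).filter fun R : ℕ => ∀ s ≤ K, ∀ m : ℤ,
        ε / 2 ≤ |(3 / 2 : ℝ) ^ s * (R / 6 ^ n) - z - 6 ^ L * m| with hBd
    have h2 : (TS α n).ncard ≤ B.card := by
      refine (Set.ncard_le_ncard h1 (Finset.finite_toSet _)).trans ?_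
      rw [Set.ncard_coe_finset]
    calc ((TS α n).ncard : ℝ) ≤ (B.card : ℝ) := by exact_mod_cast h2
      _ ≤ 6 ^ (2 * n + 1) * ((b - 1) / b) ^ k := hB
      _ ≤ 6 ^ (2 * n + 1) * (θ ^ (2 * ρ)) ^ k := by
          refine mul_le_mul_of_nonneg_left ?_ (by positivity)
          refine pow_le_pow_left₀ ?_ hη k
          exact div_nonneg (by linarith) (by linarith)
      _ ≤ C * (6 * θ) ^ (2 * n + 1) := by
          rw [mul_pow, hC, ← pow_mul, ← div_eq_inv_mul, le_div_iff₀ (pow_pos hθ0 _), mul_assoc,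
            ← pow_add]
          refine mul_le_mul_of_nonneg_left (hθpow ?_) (by positivity)
          have e5 : (k + 1) * ρ = k * ρ + ρ := by ring
          have e6 : 2 * ρ * k = 2 * (k * ρ) := by ring
          omega

end Pool.Agent.Lib.MP_881467_an.H79
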